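import Pool.Agent.Helper43.HA.StmC
import Pool.Graph.R_pool_sql_team_seeded_620a6dc7.Results.MP_d45256_al.FlexStableSixUp

/-!
# Project HA, module C (FLEX): the `ε`-`δ` form of flexible permutation stability
-/

set_option autoImplicit false
set_option linter.unusedSectionVars false

namespace Pool.Agent.Helper43.HA.FLEX

open Finset Filter Topology
open Pool.Agent.Helper43.HA Pool.Agent.H742F

theorem num_eq {X : Type} [Fintype X] (P : X → Prop) [DecidablePred P] :
    num P = ((univ.filter P).card : ℝ) := by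
  unfold num
  congr 1
  congr!

theorem num_equiv {X Y : Type} [Fintype X] [Fintype Y] (e : X ≃ Y) (P : Y → Prop) :
    num (fun x => P (e x)) = num P := by
  classical
  rw [num_eq, num_eq]
  congr 1
  refine card_bij (fun x _ => e x) ?_ ?_ ?_
  · intro x hx
    rw [mem_filter] at hx ⊢
    exact ⟨mem_univ _, hx.2⟩
  · intro x _ y _ h
    exact e.injective h
  · intro y hy
    rw [mem_filter] at hy
    exact ⟨e.symm y, by rw [mem_filter]; exact ⟨mem_univ _, by rw [e.apply_symm_apply]; exact hy.2⟩,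
      e.apply_symm_apply y⟩

theorem num_congr {X : Type} [Fintype X] {P Q : X → Prop} (h : ∀ x, P x ↔ Q x) : num P = num Q := by
  have : P = Q := funext fun x => propext (h x)
  rw [this]

section

variable {G : Type} [Group G]

/-- there is an approximation by a homomorphism -/
def Good (F₀ : Finset G) (ε : ℝ) (X : Type) [Fintype X] (f : G → Equiv.Perm X) : Prop :=
  ∃ (X' : Type) (_ : Fintype X') (ι : X ↪ X') (ρ : G →* Equiv.Perm X'),
      (Fintype.card X' : ℝ) ≤ (1 + ε) * Fintype.card X ∧
      ∀ g ∈ F₀, num (fun x => ι (f g x) ≠ ρ g (ι x)) ≤ ε * Fintype.card X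

/-- almost multiplicative on `F` -/
def Alm (F : Finset G) (δ : ℝ) (X : Type) [Fintype X] (f : G → Equiv.Perm X) : Prop :=
  ∀ g ∈ F, ∀ h ∈ F, num (fun x => f g (f h x) ≠ f (g * h) x) ≤ δ * Fintype.card X

theorem good_transport (F₀ : Finset G) (ε : ℝ) {X Y : Type} [Fintype X] [Fintype Y] (e : X ≃ Y)
    (f : G → Equiv.Perm X) (h : Good F₀ ε Y (fun g => e.permCongr (f g))) : Good F₀ ε X f := by
  obtain ⟨X', i, ι, ρ, h1, h2⟩ := h
  refine ⟨X', i, e.toEmbedding.trans ι, ρ, ?_, fun g hg => ?_⟩
  · rw [Fintype.card_congr e]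
    exact h1
  · rw [Fintype.card_congr e]
    refine le_trans (le_of_eq ?_) (h2 g hg)
    rw [← num_equiv e]
    refine num_congr fun x => ?_
    simp [Equiv.permCongr_apply]

theorem alm_transport (F : Finset G) (δ : ℝ) {X Y : Type} [Fintype X] [Fintype Y] (e : X ≃ Y)
    (f : G → Equiv.Perm X) (h : Alm F δ X f) : Alm F δ Y (fun g => e.permCongr (f g)) := by
  intro a ha b hb
  refine le_trans (le_of_eq ?_) ((h a ha b hb).trans (le_of_eq (by rw [Fintype.card_congr e])))
  rw [← num_equiv e.symm]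
  refine num_congr fun y => ?_
  simp [Equiv.permCongr_apply]

/-- the `ε`-`δ` form -/
theorem flex [Countable G] (hst : FlexStable G) (F₀ : Finset G) (ε : ℝ) (hε : 0 < ε) :
    ∃ (F₁ : Finset G) (δ : ℝ), 0 < δ ∧ ∀ (X : Type) [Fintype X] (f : G → Equiv.Perm X),
      Alm F₁ δ X f → Good F₀ ε X f := by
  classical
  by_contra hcon
  push Not at hcon
  obtain ⟨e, he⟩ := exists_surjective_nat G
  obtain ⟨F, hF⟩ : ∃ F : ℕ → Finset G, F = fun j => (range (j + 1)).image e := ⟨_, rfl⟩
  have hFmem : ∀ a j, a ≤ j → e a ∈ F j := by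
    intro a j haj
    rw [hF]
    exact mem_image_of_mem e (mem_range.2 (by omega))
  have hFmono : ∀ i j, i ≤ j → F i ⊆ F j := by
    intro i j hij
    rw [hF]
    exact image_subset_image (range_subset_range.2 (by omega))
  obtain ⟨P, hPdef⟩ : ∃ P : ℕ → ℕ → Prop, P = fun j N => ∃ f : G → Equiv.Perm (Fin N),
      Alm (F j) (1 / ((j : ℝ) + 1)) (Fin N) f ∧ ¬ Good F₀ ε (Fin N) f := ⟨_, rfl⟩
  have hP : ∀ j, ∃ N, P j N := by
    intro j
    obtain ⟨X, iX, f, h1, h2⟩ := hcon (F j) (1 / ((j : ℝ) + 1)) (by positivity)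
    rw [hPdef]
    refine ⟨Fintype.card X, fun g => (Fintype.equivFin X).permCongr (f g),
      alm_transport _ _ _ _ h1, fun h => h2 (good_transport _ _ _ _ h)⟩
  have hanti : ∀ i j N, i ≤ j → P j N → P i N := by
    intro i j N hij h
    rw [hPdef] at h ⊢
    obtain ⟨f, h1, h2⟩ := h
    refine ⟨f, fun a ha b hb => ?_, h2⟩
    refine (h1 a (hFmono i j hij ha) b (hFmono i j hij hb)).trans ?_
    refine mul_le_mul_of_nonneg_right ?_ (Nat.cast_nonneg _)
    exact one_div_le_one_div_of_le (by positivity) (by exact_mod_cast Nat.succ_le_succ hij)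
  by_cases hb : ∃ N, ∀ j, P j N
  · -- bounded size: a limit
    obtain ⟨N, hN⟩ := hb
    rw [hPdef] at hN
    choose f hf1 hf2 using hN
    have hlim : ∀ g, ∃ a : Equiv.Perm (Fin N), ∀ᶠ j in (hyperfilter ℕ : Filter ℕ), f j g = a := by
      intro g
      obtain ⟨a, ha⟩ := Ultrafilter.eq_pure_of_finite (Ultrafilter.map (fun j => f j g) (hyperfilter ℕ))
      refine ⟨a, ?_⟩
      have h1 : ({a} : Set (Equiv.Perm (Fin N))) ∈ Ultrafilter.map (fun j => f j g) (hyperfilter ℕ) := by
        rw [ha]
        exact Ultrafilter.mem_pure.2 rfl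
      exact Ultrafilter.mem_map.1 h1
    choose f0 hf0 using hlim
    have hinf : ∀ j0 : ℕ, ∀ᶠ j in (hyperfilter ℕ : Filter ℕ), j0 ≤ j := by
      intro j0
      have h1 : ∀ᶠ j in (atTop : Filter ℕ), j0 ≤ j := eventually_ge_atTop j0
      exact Nat.hyperfilter_le_atTop h1
    have hmul : ∀ g h, f0 (g * h) = f0 g * f0 h := by
      intro g h
      obtain ⟨a, rfl⟩ := he g
      obtain ⟨b, rfl⟩ := he h
      obtain ⟨j, ⟨⟨h1, h2⟩, h3⟩, h4⟩ := (((hf0 (e a)).and (hf0 (e b))).and (hf0 (e a * e b))).and
        (hinf (a + b + N)) |>.exists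
      have h5 := hf1 j (e a) (hFmem a j (by omega)) (e b) (hFmem b j (by omega))
      have h6 : num (fun x => (f j (e a)) ((f j (e b)) x) ≠ (f j (e a * e b)) x) < 1 := by
        refine lt_of_le_of_lt h5 ?_
        rw [Fintype.card_fin, one_div, inv_mul_lt_iff₀ (by positivity), mul_one]
        have : (N : ℝ) ≤ j := by exact_mod_cast (by omega : N ≤ j)
        linarith
      rw [num_eq] at h6
      have h7 : (univ.filter (fun x => (f j (e a)) ((f j (e b)) x) ≠ (f j (e a * e b)) x)).card = 0 := by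
        have : ((univ.filter (fun x => (f j (e a)) ((f j (e b)) x) ≠ (f j (e a * e b)) x)).card : ℝ) < (1 : ℕ) := by
          rw [Nat.cast_one]
          exact h6
        have := Nat.cast_lt.1 this
        omega
      rw [card_eq_zero, filter_eq_empty_iff] at h7
      rw [← h1, ← h2, ← h3]
      ext x
      have := h7 (mem_univ x)
      rw [not_not] at this
      rw [Equiv.Perm.mul_apply, this]
    let ρ : G →* Equiv.Perm (Fin N) := MonoidHom.mk' f0 hmul
    obtain ⟨j, hj⟩ := ((eventually_all_finset F₀).2 (fun g _ => hf0 g)).exists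
    refine hf2 j ⟨Fin N, inferInstance, Function.Embedding.refl _, ρ, ?_, fun g hg => ?_⟩
    · have : (0 : ℝ) ≤ ε * Fintype.card (Fin N) := by positivity
      linarith
    · have h1 : num (fun x => (Function.Embedding.refl (Fin N)) (f j g x) ≠
          ρ g ((Function.Embedding.refl (Fin N)) x)) = 0 := by
        rw [num_eq]
        have : (univ.filter (fun x => (Function.Embedding.refl (Fin N)) (f j g x) ≠
          ρ g ((Function.Embedding.refl (Fin N)) x))) = ∅ := by
          rw [filter_eq_empty_iff]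
          intro x _
          rw [not_not, hj g hg]
          rfl
        rw [this, card_empty, Nat.cast_zero]
      rw [h1]
      positivity
  · push Not at hb
    have hfreq : ∀ j, ∃ᶠ N in atTop, P j N := by
      intro j
      rw [frequently_atTop]
      by_contra hc
      push Not at hc
      obtain ⟨N0, hN0⟩ := hc
      choose k hk using hb
      obtain ⟨N, hN⟩ := hP (max j ((range N0).sup k))
      rcases lt_or_ge N N0 with h | h
      · exact hk N (hanti _ _ N ((le_sup (f := k) (mem_range.2 h)).trans (le_max_right _ _)) hN)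
      · exact hN0 N h (hanti _ _ N (le_max_left _ _) hN)
    obtain ⟨φ, hφ, hφP⟩ := extraction_forall_of_frequently hfreq
    have hex : ∀ N, ∃ f : G → Equiv.Perm (Fin N), (∀ j, φ j = N →
        Alm (F j) (1 / ((j : ℝ) + 1)) (Fin N) f ∧ ¬ Good F₀ ε (Fin N) f) ∧
        ((¬ ∃ j, φ j = N) → f = fun _ => 1) := by
      intro N
      by_cases h : ∃ j, φ j = N
      · obtain ⟨j, rfl⟩ := h
        have h1 := hφP j
        rw [hPdef] at h1
        obtain ⟨f, h2, h3⟩ := h1
        refine ⟨f, fun j' hj' => ?_, fun h4 => absurd ⟨j, rfl⟩ h4⟩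
        obtain rfl := hφ.injective hj'
        exact ⟨h2, h3⟩
      · exact ⟨fun _ => 1, fun j hj => absurd ⟨j, hj⟩ h, fun _ => rfl⟩
    choose f hf1 hf2 using hex
    have hA : AHom f := by
      intro g h
      obtain ⟨a, rfl⟩ := he g
      obtain ⟨b, rfl⟩ := he h
      rw [Metric.tendsto_atTop]
      intro r hr
      obtain ⟨c, hc⟩ := exists_nat_one_div_lt hr
      refine ⟨φ (a + b + c) + 1, fun N hN => ?_⟩
      rw [Real.dist_eq, sub_zero]
      by_cases hx : ∃ j, φ j = N
      · obtain ⟨j, hj⟩ := hx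
        have h1 : a + b + c < j := hφ.lt_iff_lt.1 (by omega)
        have h2 := (hf1 N j hj).1 (e a) (hFmem a j (by omega)) (e b) (hFmem b j (by omega))
        rw [num_eq, Fintype.card_fin] at h2
        have hN0 : (0 : ℝ) < N := by exact_mod_cast (by omega : 0 < N)
        have h3 : 0 ≤ hd (f N (e a) * f N (e b)) (f N (e a * e b)) := by
          unfold hd
          positivity
        rw [abs_of_nonneg h3]
        refine lt_of_le_of_lt ?_ hc
        refine le_trans (b := 1 / ((j : ℝ) + 1)) ?_ ?_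
        · unfold hd
          rw [div_le_iff₀ hN0]
          refine le_trans (le_of_eq ?_) h2
          congr 1
        · refine one_div_le_one_div_of_le (by positivity) ?_
          exact_mod_cast (by omega : c + 1 ≤ j + 1)
      · rw [hf2 N hx]
        unfold hd
        simp [hr]
    obtain ⟨m, hm, ρ, hρ⟩ := hst f hA
    have hev : ∀ᶠ n in atTop, ∀ g ∈ insert 1 F₀, fd (hm n) (f n g) (ρ n g) < ε := by
      rw [eventually_all_finset]
      intro g _
      have := (hρ g).eventually (gt_mem_nhds hε)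
      exact this
    obtain ⟨j, hj1, hj2⟩ := ((hφ.tendsto_atTop.eventually hev).and
      (hφ.tendsto_atTop.eventually (eventually_gt_atTop 0))).exists
    obtain ⟨N, hN⟩ : ∃ N, N = φ j := ⟨_, rfl⟩
    rw [← hN] at hj1 hj2
    have hN0 : (0 : ℝ) < N := by exact_mod_cast hj2
    have hmN : (N : ℝ) ≤ m N := by exact_mod_cast hm N
    have key : ∀ g ∈ insert 1 F₀,
        ((univ.filter fun x : Fin N => Fin.castLE (hm N) (f N g x) ≠ ρ N g (Fin.castLE (hm N) x)).card : ℝ) +
          ((m N : ℝ) - N) ≤ ε * N := by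
      intro g hg
      have h1 := hj1 g hg
      unfold fd at h1
      rw [div_lt_iff₀ hN0] at h1
      refine le_trans (le_of_eq ?_) h1.le
      congr 2
    refine (hf1 N j hN.symm).2 ⟨Fin (m N), inferInstance, Fin.castLEEmb (hm N), ρ N, ?_, fun g hg => ?_⟩
    · rw [Fintype.card_fin, Fintype.card_fin]
      have h1 := key 1 (mem_insert_self _ _)
      have h2 : (0 : ℝ) ≤ ((univ.filter fun x : Fin N =>
        Fin.castLE (hm N) (f N 1 x) ≠ ρ N 1 (Fin.castLE (hm N) x)).card : ℝ) := Nat.cast_nonneg _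
      linarith
    · rw [Fintype.card_fin, num_eq]
      have h1 := key g (mem_insert_of_mem hg)
      have h2 : ((univ.filter fun x : Fin N => (Fin.castLEEmb (hm N)) (f N g x) ≠
        ρ N g ((Fin.castLEEmb (hm N)) x)).card : ℝ) =
        ((univ.filter fun x : Fin N => Fin.castLE (hm N) (f N g x) ≠
          ρ N g (Fin.castLE (hm N) x)).card : ℝ) := rfl
      rw [h2]
      linarith

end

theorem main : S_FLEX := by
  intro F₀ ε hε
  have : Countable (Matrix.SpecialLinearGroup (Fin 6) ℤ) :=
    Function.Injective.countable (f := fun g : Matrix.SpecialLinearGroup (Fin 6) ℤ =>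
      (fun i j => (g : Matrix (Fin 6) (Fin 6) ℤ) i j)) (fun g h hgh => Subtype.ext hgh)
  exact flex (Pool.Agent.Results.MP_d45256_al.FlexStableSixUp.result 6 le_rfl) F₀ ε hε

end Pool.Agent.Helper43.HA.FLEX
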