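import Pool.Graph.R_seed8.W683.RC.Bas

/-!
# Project HA: hyperlinear groups and arithmetic epimorphisms. Definitions

`Mt d`, `hs` (squared unnormalised Hilbert-Schmidt norm), `tr`, `IsPr`, `Le` are those of
`Pool.Agent.W661.RC`; basic lemmas on `hs` and `tr` are in `Pool.Graph.R_seed8.W683.RC.Bas`
(namespace `Pool.Agent.W683.RC`).
-/

set_option autoImplicit false

namespace Pool.Agent.Helper43.HA

open Matrix Finset
open Pool.Agent.W661.RC

noncomputable section

/-- A family of pairwise orthogonal projections; `r y` is the rank of `p y`. -/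
structure Fam (d : ℕ) where
  Y : Type
  fY : Fintype Y
  dY : DecidableEq Y
  p : Y → Mt d
  r : Y → ℕ
  pr : ∀ y, IsPr (p y)
  orth : ∀ y z, y ≠ z → p y * p z = 0
  rk : ∀ y, tr (p y) = r y

attribute [instance] Fam.fY Fam.dY

/-- The points: every `y` is replaced by `r y` points. -/
abbrev Fam.X {d : ℕ} (F : Fam d) : Type := Σ y : F.Y, Fin (F.r y)

/-- Linear combinations of the projections. -/
def Fam.z {d : ℕ} (F : Fam d) (f : F.Y → ℂ) : Mt d := ∑ y, f y • F.p y

/-- Conjugation by `V` maps the unit ball of the span of the projections into a neighbourhood of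
it. -/
def Fam.Near {d : ℕ} (F : Fam d) (V : Mt d) (ε : ℝ) : Prop :=
  ∀ f : F.Y → ℂ, (∀ y, ‖f y‖ ≤ 1) → ∃ f' : F.Y → ℂ, (∀ y, ‖f' y‖ ≤ 1) ∧
    hs (V * F.z f * Vᴴ - F.z f') ≤ ε * d

/-- The sum of the projections is almost the identity. -/
def Fam.Full {d : ℕ} (F : Fam d) (ε : ℝ) : Prop := (1 - ε) * d ≤ Fintype.card F.X

/-- the number of elements with a property -/
abbrev num {X : Type} [Fintype X] (P : X → Prop) : ℝ := by
  classical exact ((univ.filter P).card : ℝ)

/-- The permutation `τ` of the points is induced by the partial map `σ` (it keeps the second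
coordinate) at all points outside a set of at most `ε` elements. -/
def Fam.Ind {d : ℕ} (F : Fam d) (σ : F.Y → Option F.Y) (τ : Equiv.Perm F.X) (ε : ℝ) : Prop :=
  (∀ y z w, σ y = some w → σ z = some w → y = z) ∧
  num (fun x : F.X => ¬ (σ x.1 = some (τ x).1 ∧ ((τ x).2 : ℕ) = (x.2 : ℕ))) ≤ ε ∧
  ∑ y, (σ y).elim (F.r y : ℝ) (fun w => |(F.r y : ℝ) - F.r w|) ≤ ε

/-- the standard additive character of `ℤ / N` -/
abbrev ch {N : ℕ} [NeZero N] (a : ZMod N) : ℂ := ZMod.stdAddChar a

/-- the pairing on `(ℤ / N)²` -/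
def bp {N : ℕ} (a b : ZMod N × ZMod N) : ZMod N := a.1 * b.1 + a.2 * b.2

/-- Unitary representations of `(ℤ / N)²`. -/
structure Rp {d N : ℕ} (X : ZMod N × ZMod N → Mt d) : Prop where
  mul : ∀ v w, X (v + w) = X v * X w
  un : ∀ v, (X v)ᴴ * X v = 1

/-- The spectral projections. -/
def Pj {d N : ℕ} [NeZero N] (X : ZMod N × ZMod N → Mt d) (θ : ZMod N × ZMod N) : Mt d :=
  ((N : ℂ) ^ 2)⁻¹ • ∑ v, ch (-bp θ v) • X v

/-- The spectral distribution. -/
def law {d N : ℕ} [NeZero N] (X : ZMod N × ZMod N → Mt d) (θ : ZMod N × ZMod N) : ℝ :=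
  hs (Pj X θ) / d

/-- Asymptotic unitary representations. -/
structure AH {G : Type} [Group G] (d : ℕ → ℕ) (U : ∀ n, G → Mt (d n)) : Prop where
  pos : ∀ n, 0 < d n
  un : ∀ n g, (U n g)ᴴ * U n g = 1
  mul : ∀ g h, ∀ ε : ℝ, 0 < ε →
    ∀ᶠ n in Filter.atTop, hs (U n (g * h) - U n g * U n h) ≤ ε * d n

end

end Pool.Agent.Helper43.HA
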