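import Pool.Agent.Helper43.HA.Defs
import Pool.Graph.R_pool_sql_team_seeded_620a6dc7.H742F.Defs

/-!
# Project HA: statements of the modules C and D

`El i j a` (in `Pool.Agent.H742F`) is the elementary matrix `1 + a E_ij`.
-/

set_option autoImplicit false

namespace Pool.Agent.Helper43.HA

open Matrix Finset
open Pool.Agent.H742F (El)

noncomputable section

/-- **Module C (FLEX)**: `ε`-`δ` form of the flexible permutation stability of `SL_6(ℤ)`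
(library: `Pool.Graph.R_pool_sql_team_seeded_620a6dc7.Results.MP_d45256_al.FlexStableSixUp`). -/
def S_FLEX : Prop := ∀ (F₀ : Finset (SpecialLinearGroup (Fin 6) ℤ)) (ε : ℝ), 0 < ε →
  ∃ (F₁ : Finset (SpecialLinearGroup (Fin 6) ℤ)) (δ : ℝ), 0 < δ ∧
  ∀ (X : Type) [Fintype X] (f : SpecialLinearGroup (Fin 6) ℤ → Equiv.Perm X),
    (∀ g ∈ F₁, ∀ h ∈ F₁, num (fun x => f g (f h x) ≠ f (g * h) x) ≤ δ * Fintype.card X) →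
    ∃ (X' : Type) (_ : Fintype X') (ι : X ↪ X')
      (ρ : SpecialLinearGroup (Fin 6) ℤ →* Equiv.Perm X'),
      (Fintype.card X' : ℝ) ≤ (1 + ε) * Fintype.card X ∧
      ∀ g ∈ F₀, num (fun x => ι (f g x) ≠ ρ g (ι x)) ≤ ε * Fintype.card X

/-- **Module D1 (KZ)**: Kazhdan's property for the subgroups `SL_3(ℤ) ⋉ ℤ³` (indices `e 1, e 2,
e 3`, and the row `e 0`) on finite `SL_6(ℤ)`-sets. -/
def S_KZ : Prop := ∃ C : ℝ, 0 < C ∧ ∀ (e : Fin 4 → Fin 6), Function.Injective e →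
  ∀ (X : Type) [Fintype X] (ρ : SpecialLinearGroup (Fin 6) ℤ →* Equiv.Perm X) (φ : X → ℂ)
    (ε : ℝ), 0 ≤ ε → (∀ x, ‖φ x‖ ≤ 1) →
  (∀ p q : Fin 4, p ≠ q → q ≠ 0 →
    ∑ x, ‖φ (ρ (El (e p) (e q) 1) x) - φ x‖ ^ 2 ≤ ε * Fintype.card X) →
  ∃ z : X → ℂ, (∀ x, ‖z x‖ ≤ 1) ∧
    (∀ (p q : Fin 4) (t : ℤ), p ≠ q → q ≠ 0 → ∀ x, z (ρ (El (e p) (e q) t) x) = z x) ∧
    ∑ x, ‖z x - φ x‖ ^ 2 ≤ C * ε * Fintype.card X

/-- **Module D2 (UNI)**, to be proved as `theorem main : S_KZ → S_UNI`: uniform additivity on finite `SL_6(ℤ)`-sets. -/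
def S_UNI : Prop := ∃ C : ℝ, 0 < C ∧ ∀ (X : Type) [Fintype X]
  (ρ : SpecialLinearGroup (Fin 6) ℤ →* Equiv.Perm X) (φ : Fin 6 → X → ℂ) (ε : ℝ), 0 ≤ ε →
  (∀ j x, ‖φ j x‖ = 1) →
  (∀ a b j : Fin 6, a ≠ b →
    ∑ x, ‖φ j (ρ (El a b 1) x) - (if j = a then φ a x * φ b x else φ j x)‖ ^ 2 ≤
      ε * Fintype.card X) →
  ∃ (N : ℕ) (_ : NeZero N) (h : ZMod N → ZMod N → X → ℂ),
    (∀ v w x, ‖h v w x‖ ≤ 1) ∧
    (∑ x, ‖h 0 0 x - 1‖ ^ 2 ≤ C * ε * Fintype.card X) ∧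
    (∀ v w v' w', ∑ x, ‖h (v + v') (w + w') x - h v w x * h v' w' x‖ ^ 2 ≤
      C * ε * Fintype.card X) ∧
    (∀ (t : ℤ) v w x, h v w (ρ (El 1 2 t) x) = h v (w + t * v) x) ∧
    (∀ (t : ℤ) v w x, h v w (ρ (El 2 1 t) x) = h (v + t * w) w x) ∧
    (∑ x, ‖h 1 0 x - φ 1 x‖ ^ 2 ≤ C * ε * Fintype.card X) ∧
    (∑ x, ‖h 0 1 x - φ 2 x‖ ^ 2 ≤ C * ε * Fintype.card X)

end

end Pool.Agent.Helper43.HA
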